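import Pool.Agent.Helper99.SZ.Stmts3
import Pool.Agent.Helper44.BK.LF

set_option autoImplicit false

/-! Module LF3: a number field which contains the three conjugates of a cubic field, together
with its inclusion into the complex numbers. -/

namespace Pool.Helper99.SZ

open NumberField

theorem st_LF3 : ST_LF3 := by
  intro K _ _ h3 σ hσ
  obtain ⟨L, hfin, hdeg, hmem, hτ⟩ := Pool.Helper99.BK.st_LF K h3 σ hσ
  have hfd : FiniteDimensional ℚ L := hfin
  have hnf : NumberField L := { to_charZero := inferInstance, to_finiteDimensional := hfd }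
  refine ⟨L, inferInstance, hnf, fun i => (σ i).codRestrict L (hmem i), algebraMap L ℂ, hdeg,
    ?_, ?_, ?_⟩
  · intro i j hij
    apply hσ
    ext x
    have h1 : (σ i).codRestrict L (hmem i) x = (σ j).codRestrict L (hmem j) x := by
      have := congrArg (fun f : K →+* L => f x) hij
      exact this
    exact congrArg (fun y : L => (y : ℂ)) h1
  · intro τ i
    obtain ⟨j, hj⟩ := hτ τ i
    exact ⟨j, fun x => hj x (hmem i x)⟩
  · intro i x
    rfl

end Pool.Helper99.SZ
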