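import Pool.Agent.Helper99.SZ.Stmts

set_option autoImplicit false

/-! Module RBN: a reduced basis of a lattice. -/

namespace Pool.Helper99.SZ

open scoped RealInnerProductSpace

/-- the projection along `w` -/
noncomputable def rbn_pi {E : Type} [NormedAddCommGroup E] [InnerProductSpace ℝ E] (w : E) :
    E →+ E :=
  AddMonoidHom.mk' (fun y => y - (⟪w, y⟫ / ‖w‖ ^ 2) • w) (by
    intro a b
    simp only [inner_add_right, add_div, add_smul]
    abel)

section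
variable {E : Type} [NormedAddCommGroup E] [InnerProductSpace ℝ E]

theorem rbn_pi_apply (w y : E) : rbn_pi w y = y - (⟪w, y⟫ / ‖w‖ ^ 2) • w := rfl

theorem rbn_pi_sq {w : E} (hw : 0 < ‖w‖) (y : E) :
    ‖rbn_pi w y‖ ^ 2 = ‖y‖ ^ 2 - ⟪w, y⟫ ^ 2 / ‖w‖ ^ 2 := by
  rw [rbn_pi_apply, norm_sub_sq_real, norm_smul, mul_pow, Real.norm_eq_abs, sq_abs,
    inner_smul_right, real_inner_comm]
  field_simp
  ring

theorem rbn_pi_le {w : E} (hw : 0 < ‖w‖) (y : E) : ‖rbn_pi w y‖ ≤ ‖y‖ := by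
  have h := rbn_pi_sq hw y
  have h1 : 0 ≤ ⟪w, y⟫ ^ 2 / ‖w‖ ^ 2 := by positivity
  exact le_of_sq_le_sq (by linarith) (norm_nonneg _)

theorem rbn_pi_self {w : E} (hw : 0 < ‖w‖) : rbn_pi w w = 0 := by
  rw [rbn_pi_apply, real_inner_self_eq_norm_sq, div_self (by positivity), one_smul, sub_self]

/-- size reduction -/
theorem rbn_red {Λ : Type} [AddCommGroup Λ] (ι : Λ →+ E) (b : Λ) (hb : 0 < ‖ι b‖) (x : Λ) :
    ∃ k : ℤ, |⟪ι b, ι (x - k • b)⟫| ≤ ‖ι b‖ ^ 2 / 2 := by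
  refine ⟨round (⟪ι b, ι x⟫ / ‖ι b‖ ^ 2), ?_⟩
  have h := abs_sub_round (⟪ι b, ι x⟫ / ‖ι b‖ ^ 2)
  have h2 : (0 : ℝ) < ‖ι b‖ ^ 2 := by positivity
  rw [map_sub, map_zsmul, inner_sub_right, ← Int.cast_smul_eq_zsmul ℝ, inner_smul_right,
    real_inner_self_eq_norm_sq]
  have e : ⟪ι b, ι x⟫ - (round (⟪ι b, ι x⟫ / ‖ι b‖ ^ 2) : ℝ) * ‖ι b‖ ^ 2 =
      (⟪ι b, ι x⟫ / ‖ι b‖ ^ 2 - round (⟪ι b, ι x⟫ / ‖ι b‖ ^ 2)) * ‖ι b‖ ^ 2 := by
    field_simp
  rw [e, abs_mul, abs_of_pos h2]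
  nlinarith

end

/-- a basis from a primitive vector and lifts of a basis of the quotient -/
theorem rbn_basis {Λ : Type} [AddCommGroup Λ] (b : Λ) (hb : ∀ k : ℤ, k • b = 0 → k = 0) {n : ℕ}
    (b' : Module.Basis (Fin n) ℤ (Λ ⧸ Submodule.span ℤ {b})) (c : Fin n → Λ)
    (hc : ∀ i, Submodule.Quotient.mk (c i) = b' i) :
    ∃ B : Module.Basis (Fin (n + 1)) ℤ Λ, B 0 = b ∧ ∀ i : Fin n, B i.succ = c i := by
  have hq : ∀ z : Fin n → ℤ, (Submodule.Quotient.mk (∑ i, z i • c i) :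
      Λ ⧸ Submodule.span ℤ {b}) = ∑ i, z i • b' i := by
    intro z
    have := map_sum (Submodule.mkQ (Submodule.span ℤ {b})) (fun i => z i • c i) Finset.univ
    rw [Submodule.mkQ_apply] at this
    rw [this]
    refine Finset.sum_congr rfl fun i _ => ?_
    rw [map_zsmul, Submodule.mkQ_apply, hc]
  have hli : LinearIndependent ℤ c := by
    rw [Fintype.linearIndependent_iff]
    intro z hz
    have h1 := hq z
    rw [hz, Submodule.Quotient.mk_zero] at h1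
    exact Fintype.linearIndependent_iff.1 b'.linearIndependent z h1.symm
  have hli' : LinearIndependent ℤ (Fin.cons b c : Fin (n + 1) → Λ) := by
    refine LinearIndependent.finCons' b c hli fun a y hy h => ?_
    obtain ⟨z, hz⟩ := (Submodule.mem_span_range_iff_exists_fun ℤ).1 hy
    have h1 := hq z
    have h2 : (y : Λ) = -(a • b) := by rw [eq_neg_iff_add_eq_zero, add_comm]; exact h
    have h3 : (Submodule.Quotient.mk (y : Λ) : Λ ⧸ Submodule.span ℤ {b}) = 0 := by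
      rw [Submodule.Quotient.mk_eq_zero, h2]
      exact Submodule.neg_mem _ (Submodule.smul_mem _ _ (Submodule.mem_span_singleton_self b))
    rw [hz, h3] at h1
    have h4 := Fintype.linearIndependent_iff.1 b'.linearIndependent z h1.symm
    have h5 : (y : Λ) = 0 := by
      rw [← hz]
      exact Finset.sum_eq_zero fun i _ => by rw [h4 i, zero_smul]
    rw [h5, add_zero] at h
    exact hb a h
  have hsp : ⊤ ≤ Submodule.span ℤ (Set.range (Fin.cons b c : Fin (n + 1) → Λ)) := by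
    intro x _
    have h1 := hq (fun i => b'.repr (Submodule.Quotient.mk x) i)
    rw [b'.sum_repr, Submodule.Quotient.eq, Submodule.mem_span_singleton] at h1
    obtain ⟨a, ha⟩ := h1
    rw [Submodule.mem_span_range_iff_exists_fun]
    refine ⟨Fin.cons (-a) fun i => b'.repr (Submodule.Quotient.mk x) i, ?_⟩
    rw [Fin.sum_univ_succ]
    simp only [Fin.cons_zero, Fin.cons_succ]
    rw [neg_smul, ha]
    abel
  refine ⟨Module.Basis.mk hli' hsp, ?_, fun i => ?_⟩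
  · rw [Module.Basis.mk_apply, Fin.cons_zero]
  · rw [Module.Basis.mk_apply, Fin.cons_succ]

theorem rbn_main (n : ℕ) : ∃ C : ℝ, 1 ≤ C ∧ ∀ (E : Type) [NormedAddCommGroup E]
    [InnerProductSpace ℝ E] (Λ : Type) [AddCommGroup Λ] [Module.Finite ℤ Λ] [Module.Free ℤ Λ],
    Module.finrank ℤ Λ = n → ∀ (ι : Λ →+ E) (l : ℝ), 0 < l → (∀ x, x ≠ 0 → l ≤ ‖ι x‖) →
    ∃ b : Module.Basis (Fin n) ℤ Λ, ∀ x i, |((b.repr x i : ℤ) : ℝ)| * l ≤ C * ‖ι x‖ := by
  induction n with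
  | zero =>
    refine ⟨1, le_rfl, ?_⟩
    intro E _ _ Λ _ _ _ h ι l _ _
    exact ⟨Module.finBasisOfFinrankEq ℤ Λ h, fun x i => i.elim0⟩
  | succ n ih =>
    obtain ⟨C, hC1, ih⟩ := ih
    refine ⟨(n + 2) * C, by nlinarith [(Nat.cast_nonneg n : (0 : ℝ) ≤ n)], ?_⟩
    intro E _ _ Λ _ _ _ hfr ι l hl hι
    have hnt : Nontrivial Λ := by
      by_contra hcon
      rw [not_nontrivial_iff_subsingleton] at hcon
      rw [Module.finrank_zero_of_subsingleton] at hfr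
      omega
    -- the short vector
    obtain ⟨b, hb0, hb⟩ : ∃ b : Λ, b ≠ 0 ∧ ∀ y, y ≠ 0 → ‖ι b‖ ≤ 7 / 5 * ‖ι y‖ := by
      obtain ⟨x0, hx0⟩ := exists_ne (0 : Λ)
      obtain ⟨S, hS⟩ : ∃ S : Set ℝ, S = {r | ∃ x : Λ, x ≠ 0 ∧ r = ‖ι x‖} := ⟨_, rfl⟩
      have hSn : S.Nonempty := by rw [hS]; exact ⟨_, x0, hx0, rfl⟩
      have hSb : ∀ r ∈ S, l ≤ r := by
        rw [hS]
        rintro r ⟨x, hx, rfl⟩
        exact hι x hx
      have h1 : l ≤ sInf S := le_csInf hSn hSb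
      have h2 : sInf S < 7 / 5 * sInf S := by linarith
      obtain ⟨r, hr, hr2⟩ := exists_lt_of_csInf_lt hSn h2
      rw [hS] at hr
      obtain ⟨b, hb0, rfl⟩ := hr
      refine ⟨b, hb0, fun y hy => hr2.le.trans ?_⟩
      have : sInf S ≤ ‖ι y‖ := csInf_le ⟨l, hSb⟩ (by rw [hS]; exact ⟨y, hy, rfl⟩)
      linarith
    have hbl : l ≤ ‖ι b‖ := hι b hb0
    have hbp : 0 < ‖ι b‖ := hl.trans_le hbl
    have hbk : ∀ k : ℤ, k • b = 0 → k = 0 := by
      intro k hk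
      have h1 : ι (k • b) = 0 := by rw [hk, map_zero]
      rw [map_zsmul, ← Int.cast_smul_eq_zsmul ℝ, smul_eq_zero] at h1
      rcases h1 with h1 | h1
      · exact_mod_cast h1
      · rw [h1, norm_zero] at hbp
        exact absurd hbp (lt_irrefl _)
    -- the quotient
    have hker : ∀ x : Λ, x ∉ Submodule.span ℤ {b} → ‖ι b‖ / 2 ≤ ‖rbn_pi (ι b) (ι x)‖ := by
      intro x hx
      obtain ⟨k, hk⟩ := rbn_red ι b hbp x
      have hne : x - k • b ≠ 0 := by
        intro h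
        exact hx (Submodule.mem_span_singleton.2 ⟨k, (sub_eq_zero.1 h).symm⟩)
      have h1 := hb _ hne
      have h2 : rbn_pi (ι b) (ι x) = rbn_pi (ι b) (ι (x - k • b)) := by
        rw [map_sub ι, map_zsmul ι, map_sub, map_zsmul, rbn_pi_self hbp, smul_zero, sub_zero]
      rw [h2]
      have h3 := rbn_pi_sq hbp (ι (x - k • b))
      have h4 : ⟪ι b, ι (x - k • b)⟫ ^ 2 / ‖ι b‖ ^ 2 ≤ ‖ι b‖ ^ 2 / 4 := by
        rw [div_le_iff₀ (by positivity), ← sq_abs]
        have h5 := mul_self_le_mul_self (abs_nonneg _) hk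
        calc |⟪ι b, ι (x - k • b)⟫| ^ 2 = |⟪ι b, ι (x - k • b)⟫| * |⟪ι b, ι (x - k • b)⟫| :=
              sq _
          _ ≤ _ := h5
          _ = _ := by ring
      have h6 : ‖ι b‖ ^ 2 ≤ 49 / 25 * ‖ι (x - k • b)‖ ^ 2 := by
        have := mul_self_le_mul_self hbp.le h1
        calc ‖ι b‖ ^ 2 = ‖ι b‖ * ‖ι b‖ := sq _
          _ ≤ _ := this
          _ = _ := by ring
      refine le_of_sq_le_sq ?_ (norm_nonneg _)
      rw [h3]
      have : (‖ι b‖ / 2) ^ 2 = ‖ι b‖ ^ 2 / 4 := by ring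
      rw [this]
      nlinarith [sq_nonneg ‖ι b‖]
    obtain ⟨ι', hι'⟩ : ∃ ι' : (Λ ⧸ Submodule.span ℤ {b}) →+ E,
        ∀ x : Λ, ι' (Submodule.Quotient.mk x) = rbn_pi (ι b) (ι x) := by
      have hle : Submodule.span ℤ {b} ≤ LinearMap.ker ((rbn_pi (ι b)).comp ι).toIntLinearMap := by
        rw [Submodule.span_singleton_le_iff_mem, LinearMap.mem_ker]
        exact rbn_pi_self hbp
      exact ⟨(Submodule.liftQ _ ((rbn_pi (ι b)).comp ι).toIntLinearMap hle).toAddMonoidHom,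
        fun x => rfl⟩
    have hι'0 : ∀ y : Λ ⧸ Submodule.span ℤ {b}, y ≠ 0 → ‖ι b‖ / 2 ≤ ‖ι' y‖ := by
      intro y hy
      obtain ⟨x, rfl⟩ := Submodule.Quotient.mk_surjective _ y
      rw [hι']
      exact hker x fun h => hy ((Submodule.Quotient.mk_eq_zero _).2 h)
    have hinj : Function.Injective ι' := by
      rw [injective_iff_map_eq_zero]
      intro y hy
      by_contra hne
      have := hι'0 y hne
      rw [hy, norm_zero] at this
      linarith
    have hE : Module.IsTorsionFree ℤ E := Module.IsTorsionFree.of_smul_eq_zero fun r m h => by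
      rw [← Int.cast_smul_eq_zsmul ℝ, smul_eq_zero] at h
      rcases h with h | h
      · left; exact_mod_cast h
      · exact Or.inr h
    have htf : Module.IsTorsionFree ℤ (Λ ⧸ Submodule.span ℤ {b}) :=
      Function.Injective.moduleIsTorsionFree ι' hinj fun r m => map_zsmul ι' r m
    have hfree : Module.Free ℤ (Λ ⧸ Submodule.span ℤ {b}) := inferInstance
    -- the rank
    have hlift : ∀ {m : ℕ} (b' : Module.Basis (Fin m) ℤ (Λ ⧸ Submodule.span ℤ {b})),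
        ∃ c : Fin m → Λ, (∀ i, Submodule.Quotient.mk (c i) = b' i) ∧
          ∀ i, |⟪ι b, ι (c i)⟫| ≤ ‖ι b‖ ^ 2 / 2 := by
      intro m b'
      have : ∀ i, ∃ c : Λ, Submodule.Quotient.mk c = b' i ∧ |⟪ι b, ι c⟫| ≤ ‖ι b‖ ^ 2 / 2 := by
        intro i
        obtain ⟨x, hx⟩ := Submodule.Quotient.mk_surjective _ (b' i)
        obtain ⟨k, hk⟩ := rbn_red ι b hbp x
        refine ⟨x - k • b, ?_, hk⟩
        rw [← hx, Submodule.Quotient.eq, Submodule.mem_span_singleton]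
        exact ⟨-k, by rw [neg_smul]; abel⟩
      choose c hc1 hc2 using this
      exact ⟨c, hc1, hc2⟩
    have hrk : Module.finrank ℤ (Λ ⧸ Submodule.span ℤ {b}) = n := by
      obtain ⟨c, hc1, _⟩ := hlift (Module.finBasis ℤ (Λ ⧸ Submodule.span ℤ {b}))
      obtain ⟨B, _⟩ := rbn_basis b hbk _ c hc1
      have := Module.finrank_eq_card_basis B
      rw [hfr, Fintype.card_fin] at this
      omega
    obtain ⟨b', hb'⟩ := ih E (Λ ⧸ Submodule.span ℤ {b}) hrk ι' (‖ι b‖ / 2) (by linarith) hι'0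
    obtain ⟨c, hc1, hc2⟩ := hlift b'
    obtain ⟨B, hB0, hBs⟩ := rbn_basis b hbk b' c hc1
    refine ⟨B, fun x => ?_⟩
    have hx : x = B.repr x 0 • b + ∑ i : Fin n, B.repr x i.succ • c i := by
      conv_lhs => rw [← B.sum_repr x]
      rw [Fin.sum_univ_succ, hB0]
      simp only [hBs]
    have hco : ∀ i : Fin n, b'.repr (Submodule.Quotient.mk x) i = B.repr x i.succ := by
      intro i
      have h1 : (Submodule.Quotient.mk x : Λ ⧸ Submodule.span ℤ {b}) =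
          ∑ i : Fin n, B.repr x i.succ • b' i := by
        have h2 : (Submodule.mkQ (Submodule.span ℤ {b})) x =
            (Submodule.mkQ (Submodule.span ℤ {b}))
              (B.repr x 0 • b + ∑ i : Fin n, B.repr x i.succ • c i) := by rw [← hx]
        rw [map_add, map_zsmul, map_sum] at h2
        simp only [map_zsmul, Submodule.mkQ_apply, hc1] at h2
        rw [h2]
        have h3 : (Submodule.Quotient.mk b : Λ ⧸ Submodule.span ℤ {b}) = 0 :=
          (Submodule.Quotient.mk_eq_zero _).2 (Submodule.mem_span_singleton_self b)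
        rw [h3, smul_zero, zero_add]
      rw [h1]
      exact b'.repr_sum_self _ ▸ rfl
    have hsucc : ∀ i : Fin n, |((B.repr x i.succ : ℤ) : ℝ)| * (‖ι b‖ / 2) ≤ C * ‖ι x‖ := by
      intro i
      have h1 := hb' (Submodule.Quotient.mk x) i
      rw [hco, hι'] at h1
      exact h1.trans (mul_le_mul_of_nonneg_left (rbn_pi_le hbp _) (by linarith))
    have hzero : |((B.repr x 0 : ℤ) : ℝ)| * ‖ι b‖ ≤ (1 + n * C) * ‖ι x‖ := by
      have h1 : ⟪ι b, ι x⟫ = (B.repr x 0 : ℝ) * ‖ι b‖ ^ 2 +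
          ∑ i : Fin n, (B.repr x i.succ : ℝ) * ⟪ι b, ι (c i)⟫ := by
        conv_lhs => rw [hx]
        rw [map_add, map_zsmul, map_sum, inner_add_right, inner_sum,
          ← Int.cast_smul_eq_zsmul ℝ, inner_smul_right, real_inner_self_eq_norm_sq]
        congr 1
        refine Finset.sum_congr rfl fun i _ => ?_
        rw [map_zsmul, ← Int.cast_smul_eq_zsmul ℝ, inner_smul_right]
      have h2 : |∑ i : Fin n, (B.repr x i.succ : ℝ) * ⟪ι b, ι (c i)⟫| ≤
          n * (C * ‖ι x‖ * ‖ι b‖) := by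
        refine (Finset.abs_sum_le_sum_abs _ _).trans ?_
        have : ∀ i ∈ (Finset.univ : Finset (Fin n)),
            |(B.repr x i.succ : ℝ) * ⟪ι b, ι (c i)⟫| ≤ C * ‖ι x‖ * ‖ι b‖ := by
          intro i _
          rw [abs_mul]
          calc |(B.repr x i.succ : ℝ)| * |⟪ι b, ι (c i)⟫| ≤
                |(B.repr x i.succ : ℝ)| * (‖ι b‖ ^ 2 / 2) :=
                mul_le_mul_of_nonneg_left (hc2 i) (abs_nonneg _)
            _ = |(B.repr x i.succ : ℝ)| * (‖ι b‖ / 2) * ‖ι b‖ := by ring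
            _ ≤ C * ‖ι x‖ * ‖ι b‖ := mul_le_mul_of_nonneg_right (hsucc i) hbp.le
        refine (Finset.sum_le_sum this).trans ?_
        rw [Finset.sum_const, Finset.card_univ, Fintype.card_fin, nsmul_eq_mul]
      have h3 : |⟪ι b, ι x⟫| ≤ ‖ι b‖ * ‖ι x‖ := abs_real_inner_le_norm _ _
      have h4 : |(B.repr x 0 : ℝ)| * ‖ι b‖ ^ 2 ≤
          ‖ι b‖ * ‖ι x‖ + n * (C * ‖ι x‖ * ‖ι b‖) := by
        have h5 : (B.repr x 0 : ℝ) * ‖ι b‖ ^ 2 = ⟪ι b, ι x⟫ -
            ∑ i : Fin n, (B.repr x i.succ : ℝ) * ⟪ι b, ι (c i)⟫ := by linarith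
        have h6 : |(B.repr x 0 : ℝ)| * ‖ι b‖ ^ 2 = |(B.repr x 0 : ℝ) * ‖ι b‖ ^ 2| := by
          rw [abs_mul, abs_of_nonneg (by positivity : (0 : ℝ) ≤ ‖ι b‖ ^ 2)]
        rw [h6, h5]
        exact (abs_sub _ _).trans (add_le_add h3 h2)
      have h7 : (|(B.repr x 0 : ℝ)| * ‖ι b‖) * ‖ι b‖ ≤ ((1 + n * C) * ‖ι x‖) * ‖ι b‖ := by
        calc (|(B.repr x 0 : ℝ)| * ‖ι b‖) * ‖ι b‖ = |(B.repr x 0 : ℝ)| * ‖ι b‖ ^ 2 := by ring
          _ ≤ _ := h4
          _ = _ := by ring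
      exact le_of_mul_le_mul_right h7 hbp
    have hnC : (0 : ℝ) ≤ n := Nat.cast_nonneg n
    have hxn : 0 ≤ ‖ι x‖ := norm_nonneg _
    intro i
    refine Fin.cases ?_ (fun i => ?_) i
    · refine (mul_le_mul_of_nonneg_left hbl (abs_nonneg _)).trans (hzero.trans ?_)
      refine mul_le_mul_of_nonneg_right ?_ hxn
      nlinarith
    · refine (mul_le_mul_of_nonneg_left hbl (abs_nonneg _)).trans ?_
      have := hsucc i
      have h8 : |((B.repr x i.succ : ℤ) : ℝ)| * ‖ι b‖ ≤ 2 * C * ‖ι x‖ := by linarith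
      refine h8.trans (mul_le_mul_of_nonneg_right ?_ hxn)
      nlinarith

theorem st_RBN : ST_RBN := by
  intro n
  obtain ⟨C, hC, h⟩ := rbn_main n
  refine ⟨C, hC, ?_⟩
  intro E _ _ Λ _ _ _ hfr ι hι
  obtain ⟨b, hb⟩ := h E Λ hfr ι 1 one_pos hι
  exact ⟨b, fun x i => by have := hb x i; rwa [mul_one] at this⟩

end Pool.Helper99.SZ
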