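import Pool.Agent.Helper99.SZ.Stmts2
import Pool.Agent.Helper44.SZ.RBN

set_option autoImplicit false

/-! Module RB2: reduced bases with an explicit constant. -/

namespace Pool.Helper99.SZ
open scoped RealInnerProductSpace

theorem rb2_main (n : ℕ) : ∀ (E : Type) [NormedAddCommGroup E]
    [InnerProductSpace ℝ E] (Λ : Type) [AddCommGroup Λ] [Module.Finite ℤ Λ] [Module.Free ℤ Λ],
    Module.finrank ℤ Λ = n → ∀ (ι : Λ →+ E) (l : ℝ), 0 < l → (∀ x, x ≠ 0 → l ≤ ‖ι x‖) →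
    ∃ b : Module.Basis (Fin n) ℤ Λ, ∀ x i,
      |((b.repr x i : ℤ) : ℝ)| * l ≤ ((n + 1).factorial : ℝ) * ‖ι x‖ := by
  induction n with
  | zero =>
    intro E _ _ Λ _ _ _ h ι l _ _
    exact ⟨Module.finBasisOfFinrankEq ℤ Λ h, fun x i => i.elim0⟩
  | succ n ih =>
    obtain ⟨C, hC⟩ : ∃ C : ℝ, C = ((n + 1).factorial : ℝ) := ⟨_, rfl⟩
    have hC1 : 1 ≤ C := by
      rw [hC]
      exact_mod_cast Nat.one_le_iff_ne_zero.2 (Nat.factorial_ne_zero _)
    have hC2 : ((n + 1 + 1).factorial : ℝ) = (n + 2) * C := by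
      rw [hC, Nat.factorial_succ]
      push_cast
      ring
    rw [hC2]
    rw [← hC] at ih
    intro E _ _ Λ _ _ _ hfr ι l hl hι
    have hnt : Nontrivial Λ := by
      by_contra hcon
      rw [not_nontrivial_iff_subsingleton] at hcon
      rw [Module.finrank_zero_of_subsingleton] at hfr
      omega
    -- the short vector
    obtain ⟨b, hb0, hb⟩ : ∃ b : Λ, b ≠ 0 ∧ ∀ y, y ≠ 0 → ‖ι b‖ ≤ 7 / 5 * ‖ι y‖ := by
      obtain ⟨x0, hx0⟩ := exists_ne (0 : Λ)
      obtain ⟨S, hS⟩ : ∃ S : Set ℝ, S = {r | ∃ x : Λ, x ≠ 0 ∧ r = ‖ι x‖} := ⟨_, rfl⟩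
      have hSn : S.Nonempty := by rw [hS]; exact ⟨_, x0, hx0, rfl⟩
      have hSb : ∀ r ∈ S, l ≤ r := by
        rw [hS]
        rintro r ⟨x, hx, rfl⟩
        exact hι x hx
      have h1 : l ≤ sInf S := le_csInf hSn hSb
      have h2 : sInf S < 7 / 5 * sInf S := by linarith
      obtain ⟨r, hr, hr2⟩ := exists_lt_of_csInf_lt hSn h2
      rw [hS] at hr
      obtain ⟨b, hb0, rfl⟩ := hr
      refine ⟨b, hb0, fun y hy => hr2.le.trans ?_⟩
      have : sInf S ≤ ‖ι y‖ := csInf_le ⟨l, hSb⟩ (by rw [hS]; exact ⟨y, hy, rfl⟩)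
      linarith
    have hbl : l ≤ ‖ι b‖ := hι b hb0
    have hbp : 0 < ‖ι b‖ := hl.trans_le hbl
    have hbk : ∀ k : ℤ, k • b = 0 → k = 0 := by
      intro k hk
      have h1 : ι (k • b) = 0 := by rw [hk, map_zero]
      rw [map_zsmul, ← Int.cast_smul_eq_zsmul ℝ, smul_eq_zero] at h1
      rcases h1 with h1 | h1
      · exact_mod_cast h1
      · rw [h1, norm_zero] at hbp
        exact absurd hbp (lt_irrefl _)
    -- the quotient
    have hker : ∀ x : Λ, x ∉ Submodule.span ℤ {b} → ‖ι b‖ / 2 ≤ ‖rbn_pi (ι b) (ι x)‖ := by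
      intro x hx
      obtain ⟨k, hk⟩ := rbn_red ι b hbp x
      have hne : x - k • b ≠ 0 := by
        intro h
        exact hx (Submodule.mem_span_singleton.2 ⟨k, (sub_eq_zero.1 h).symm⟩)
      have h1 := hb _ hne
      have h2 : rbn_pi (ι b) (ι x) = rbn_pi (ι b) (ι (x - k • b)) := by
        rw [map_sub ι, map_zsmul ι, map_sub, map_zsmul, rbn_pi_self hbp, smul_zero, sub_zero]
      rw [h2]
      have h3 := rbn_pi_sq hbp (ι (x - k • b))
      have h4 : ⟪ι b, ι (x - k • b)⟫ ^ 2 / ‖ι b‖ ^ 2 ≤ ‖ι b‖ ^ 2 / 4 := by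
        rw [div_le_iff₀ (by positivity), ← sq_abs]
        have h5 := mul_self_le_mul_self (abs_nonneg _) hk
        calc |⟪ι b, ι (x - k • b)⟫| ^ 2 = |⟪ι b, ι (x - k • b)⟫| * |⟪ι b, ι (x - k • b)⟫| :=
              sq _
          _ ≤ _ := h5
          _ = _ := by ring
      have h6 : ‖ι b‖ ^ 2 ≤ 49 / 25 * ‖ι (x - k • b)‖ ^ 2 := by
        have := mul_self_le_mul_self hbp.le h1
        calc ‖ι b‖ ^ 2 = ‖ι b‖ * ‖ι b‖ := sq _
          _ ≤ _ := this
          _ = _ := by ring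
      refine le_of_sq_le_sq ?_ (norm_nonneg _)
      rw [h3]
      have : (‖ι b‖ / 2) ^ 2 = ‖ι b‖ ^ 2 / 4 := by ring
      rw [this]
      nlinarith [sq_nonneg ‖ι b‖]
    obtain ⟨ι', hι'⟩ : ∃ ι' : (Λ ⧸ Submodule.span ℤ {b}) →+ E,
        ∀ x : Λ, ι' (Submodule.Quotient.mk x) = rbn_pi (ι b) (ι x) := by
      have hle : Submodule.span ℤ {b} ≤ LinearMap.ker ((rbn_pi (ι b)).comp ι).toIntLinearMap := by
        rw [Submodule.span_singleton_le_iff_mem, LinearMap.mem_ker]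
        exact rbn_pi_self hbp
      exact ⟨(Submodule.liftQ _ ((rbn_pi (ι b)).comp ι).toIntLinearMap hle).toAddMonoidHom,
        fun x => rfl⟩
    have hι'0 : ∀ y : Λ ⧸ Submodule.span ℤ {b}, y ≠ 0 → ‖ι b‖ / 2 ≤ ‖ι' y‖ := by
      intro y hy
      obtain ⟨x, rfl⟩ := Submodule.Quotient.mk_surjective _ y
      rw [hι']
      exact hker x fun h => hy ((Submodule.Quotient.mk_eq_zero _).2 h)
    have hinj : Function.Injective ι' := by
      rw [injective_iff_map_eq_zero]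
      intro y hy
      by_contra hne
      have := hι'0 y hne
      rw [hy, norm_zero] at this
      linarith
    have hE : Module.IsTorsionFree ℤ E := Module.IsTorsionFree.of_smul_eq_zero fun r m h => by
      rw [← Int.cast_smul_eq_zsmul ℝ, smul_eq_zero] at h
      rcases h with h | h
      · left; exact_mod_cast h
      · exact Or.inr h
    have htf : Module.IsTorsionFree ℤ (Λ ⧸ Submodule.span ℤ {b}) :=
      Function.Injective.moduleIsTorsionFree ι' hinj fun r m => map_zsmul ι' r m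
    have hfree : Module.Free ℤ (Λ ⧸ Submodule.span ℤ {b}) := inferInstance
    -- the rank
    have hlift : ∀ {m : ℕ} (b' : Module.Basis (Fin m) ℤ (Λ ⧸ Submodule.span ℤ {b})),
        ∃ c : Fin m → Λ, (∀ i, Submodule.Quotient.mk (c i) = b' i) ∧
          ∀ i, |⟪ι b, ι (c i)⟫| ≤ ‖ι b‖ ^ 2 / 2 := by
      intro m b'
      have : ∀ i, ∃ c : Λ, Submodule.Quotient.mk c = b' i ∧ |⟪ι b, ι c⟫| ≤ ‖ι b‖ ^ 2 / 2 := by
        intro i
        obtain ⟨x, hx⟩ := Submodule.Quotient.mk_surjective _ (b' i)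
        obtain ⟨k, hk⟩ := rbn_red ι b hbp x
        refine ⟨x - k • b, ?_, hk⟩
        rw [← hx, Submodule.Quotient.eq, Submodule.mem_span_singleton]
        exact ⟨-k, by rw [neg_smul]; abel⟩
      choose c hc1 hc2 using this
      exact ⟨c, hc1, hc2⟩
    have hrk : Module.finrank ℤ (Λ ⧸ Submodule.span ℤ {b}) = n := by
      obtain ⟨c, hc1, _⟩ := hlift (Module.finBasis ℤ (Λ ⧸ Submodule.span ℤ {b}))
      obtain ⟨B, _⟩ := rbn_basis b hbk _ c hc1
      have := Module.finrank_eq_card_basis B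
      rw [hfr, Fintype.card_fin] at this
      omega
    obtain ⟨b', hb'⟩ := ih E (Λ ⧸ Submodule.span ℤ {b}) hrk ι' (‖ι b‖ / 2) (by linarith) hι'0
    obtain ⟨c, hc1, hc2⟩ := hlift b'
    obtain ⟨B, hB0, hBs⟩ := rbn_basis b hbk b' c hc1
    refine ⟨B, fun x => ?_⟩
    have hx : x = B.repr x 0 • b + ∑ i : Fin n, B.repr x i.succ • c i := by
      conv_lhs => rw [← B.sum_repr x]
      rw [Fin.sum_univ_succ, hB0]
      simp only [hBs]
    have hco : ∀ i : Fin n, b'.repr (Submodule.Quotient.mk x) i = B.repr x i.succ := by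
      intro i
      have h1 : (Submodule.Quotient.mk x : Λ ⧸ Submodule.span ℤ {b}) =
          ∑ i : Fin n, B.repr x i.succ • b' i := by
        have h2 : (Submodule.mkQ (Submodule.span ℤ {b})) x =
            (Submodule.mkQ (Submodule.span ℤ {b}))
              (B.repr x 0 • b + ∑ i : Fin n, B.repr x i.succ • c i) := by rw [← hx]
        rw [map_add, map_zsmul, map_sum] at h2
        simp only [map_zsmul, Submodule.mkQ_apply, hc1] at h2
        rw [h2]
        have h3 : (Submodule.Quotient.mk b : Λ ⧸ Submodule.span ℤ {b}) = 0 :=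
          (Submodule.Quotient.mk_eq_zero _).2 (Submodule.mem_span_singleton_self b)
        rw [h3, smul_zero, zero_add]
      rw [h1]
      exact b'.repr_sum_self _ ▸ rfl
    have hsucc : ∀ i : Fin n, |((B.repr x i.succ : ℤ) : ℝ)| * (‖ι b‖ / 2) ≤ C * ‖ι x‖ := by
      intro i
      have h1 := hb' (Submodule.Quotient.mk x) i
      rw [hco, hι'] at h1
      exact h1.trans (mul_le_mul_of_nonneg_left (rbn_pi_le hbp _) (by linarith))
    have hzero : |((B.repr x 0 : ℤ) : ℝ)| * ‖ι b‖ ≤ (1 + n * C) * ‖ι x‖ := by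
      have h1 : ⟪ι b, ι x⟫ = (B.repr x 0 : ℝ) * ‖ι b‖ ^ 2 +
          ∑ i : Fin n, (B.repr x i.succ : ℝ) * ⟪ι b, ι (c i)⟫ := by
        conv_lhs => rw [hx]
        rw [map_add, map_zsmul, map_sum, inner_add_right, inner_sum,
          ← Int.cast_smul_eq_zsmul ℝ, inner_smul_right, real_inner_self_eq_norm_sq]
        congr 1
        refine Finset.sum_congr rfl fun i _ => ?_
        rw [map_zsmul, ← Int.cast_smul_eq_zsmul ℝ, inner_smul_right]
      have h2 : |∑ i : Fin n, (B.repr x i.succ : ℝ) * ⟪ι b, ι (c i)⟫| ≤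
          n * (C * ‖ι x‖ * ‖ι b‖) := by
        refine (Finset.abs_sum_le_sum_abs _ _).trans ?_
        have : ∀ i ∈ (Finset.univ : Finset (Fin n)),
            |(B.repr x i.succ : ℝ) * ⟪ι b, ι (c i)⟫| ≤ C * ‖ι x‖ * ‖ι b‖ := by
          intro i _
          rw [abs_mul]
          calc |(B.repr x i.succ : ℝ)| * |⟪ι b, ι (c i)⟫| ≤
                |(B.repr x i.succ : ℝ)| * (‖ι b‖ ^ 2 / 2) :=
                mul_le_mul_of_nonneg_left (hc2 i) (abs_nonneg _)
            _ = |(B.repr x i.succ : ℝ)| * (‖ι b‖ / 2) * ‖ι b‖ := by ring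
            _ ≤ C * ‖ι x‖ * ‖ι b‖ := mul_le_mul_of_nonneg_right (hsucc i) hbp.le
        refine (Finset.sum_le_sum this).trans ?_
        rw [Finset.sum_const, Finset.card_univ, Fintype.card_fin, nsmul_eq_mul]
      have h3 : |⟪ι b, ι x⟫| ≤ ‖ι b‖ * ‖ι x‖ := abs_real_inner_le_norm _ _
      have h4 : |(B.repr x 0 : ℝ)| * ‖ι b‖ ^ 2 ≤
          ‖ι b‖ * ‖ι x‖ + n * (C * ‖ι x‖ * ‖ι b‖) := by
        have h5 : (B.repr x 0 : ℝ) * ‖ι b‖ ^ 2 = ⟪ι b, ι x⟫ -
            ∑ i : Fin n, (B.repr x i.succ : ℝ) * ⟪ι b, ι (c i)⟫ := by linarith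
        have h6 : |(B.repr x 0 : ℝ)| * ‖ι b‖ ^ 2 = |(B.repr x 0 : ℝ) * ‖ι b‖ ^ 2| := by
          rw [abs_mul, abs_of_nonneg (by positivity : (0 : ℝ) ≤ ‖ι b‖ ^ 2)]
        rw [h6, h5]
        exact (abs_sub _ _).trans (add_le_add h3 h2)
      have h7 : (|(B.repr x 0 : ℝ)| * ‖ι b‖) * ‖ι b‖ ≤ ((1 + n * C) * ‖ι x‖) * ‖ι b‖ := by
        calc (|(B.repr x 0 : ℝ)| * ‖ι b‖) * ‖ι b‖ = |(B.repr x 0 : ℝ)| * ‖ι b‖ ^ 2 := by ring
          _ ≤ _ := h4
          _ = _ := by ring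
      exact le_of_mul_le_mul_right h7 hbp
    have hnC : (0 : ℝ) ≤ n := Nat.cast_nonneg n
    have hxn : 0 ≤ ‖ι x‖ := norm_nonneg _
    intro i
    refine Fin.cases ?_ (fun i => ?_) i
    · refine (mul_le_mul_of_nonneg_left hbl (abs_nonneg _)).trans (hzero.trans ?_)
      refine mul_le_mul_of_nonneg_right ?_ hxn
      nlinarith
    · refine (mul_le_mul_of_nonneg_left hbl (abs_nonneg _)).trans ?_
      have := hsucc i
      have h8 : |((B.repr x i.succ : ℤ) : ℝ)| * ‖ι b‖ ≤ 2 * C * ‖ι x‖ := by linarith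
      refine h8.trans (mul_le_mul_of_nonneg_right ?_ hxn)
      nlinarith

theorem st_RB2 : ST_RB2 := by
  intro n E _ _ Λ _ _ _ hfr ι hι
  obtain ⟨b, hb⟩ := rb2_main n E Λ hfr ι 1 one_pos hι
  exact ⟨b, fun x i => by have := hb x i; rwa [mul_one] at this⟩

end Pool.Helper99.SZ
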