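import Pool.Agent.Helper99.SZ.Stmts3

set_option autoImplicit false

/-! Module SHP3 (ideal powers): solving the linear relation for the coordinate with the largest coefficient. -/

namespace Pool.Helper99.SZ

open NumberField

theorem shp3_pow {p : ℕ} [Fact p.Prime] (a : ℚ) (n : ℕ) :
    padicNorm p (a ^ n) = padicNorm p a ^ n := by
  induction n with
  | zero => rw [pow_zero, pow_zero, padicNorm.one]
  | succ n ih => rw [pow_succ, pow_succ, padicNorm.mul, ih]

theorem shp3_pint {p : ℕ} [Fact p.Prime] (x : ℚ) (h : padicNorm p x ≤ 1) : pint p x := by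
  intro hd
  by_cases hx : x = 0
  · rw [hx, Rat.den_zero] at hd
    exact (Fact.out : p.Prime).one_lt.ne' (Nat.dvd_one.1 hd)
  have h1 : padicNorm p (x.num : ℚ) = 1 := by
    rw [padicNorm.int_eq_one_iff]
    intro h2
    have h3 := Int.natAbs_dvd_natAbs.2 h2
    rw [Int.natAbs_natCast] at h3
    have h4 := Nat.dvd_gcd h3 hd
    rw [x.reduced] at h4
    exact (Fact.out : p.Prime).one_lt.ne' (Nat.dvd_one.1 h4)
  have h2 : padicNorm p (x.den : ℚ) < 1 := by
    rw [padicNorm.nat_lt_one_iff]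
    exact hd
  have h3 : 0 < padicNorm p (x.den : ℚ) :=
    lt_of_le_of_ne (padicNorm.nonneg _) (padicNorm.nonzero (by
      exact_mod_cast x.den_nz)).symm
  rw [← Rat.num_div_den x, padicNorm.div, h1, div_le_one h3] at h
  exact absurd h (not_le.2 h2)

theorem shp3_lin (n v : ℕ) (V : Submodule ℚ (Fin n → ℚ)) (hV : Module.finrank ℚ V = v)
    (J : Fin v → Fin n) (hJ : ∀ x ∈ V, (∀ i, x (J i) = 0) → x = 0) (c : Fin n → ℤ) :
    ∃ d : Fin v → ℚ, ∀ x ∈ V, ∑ i, (c i : ℚ) * x i = ∑ j, d j * x (J j) := by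
  obtain ⟨T, hT⟩ : ∃ T : V →ₗ[ℚ] (Fin v → ℚ), ∀ x j, T x j = (x : Fin n → ℚ) (J j) :=
    ⟨{ toFun := fun x j => (x : Fin n → ℚ) (J j), map_add' := fun _ _ => rfl,
       map_smul' := fun _ _ => rfl }, fun _ _ => rfl⟩
  obtain ⟨f, hf⟩ : ∃ f : V →ₗ[ℚ] ℚ, ∀ x : V, f x = ∑ i, (c i : ℚ) * (x : Fin n → ℚ) i :=
    ⟨{ toFun := fun x => ∑ i, (c i : ℚ) * (x : Fin n → ℚ) i
       map_add' := fun x y => by
        rw [← Finset.sum_add_distrib]
        exact Finset.sum_congr rfl fun i _ => mul_add _ _ _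
       map_smul' := fun a x => by
        rw [RingHom.id_apply, smul_eq_mul, Finset.mul_sum]
        refine Finset.sum_congr rfl fun i _ => ?_
        show (c i : ℚ) * (a * (x : Fin n → ℚ) i) = _
        ring }, fun _ => rfl⟩
  have hinj : Function.Injective T := by
    rw [injective_iff_map_eq_zero]
    intro x hx
    have := hJ x x.2 (fun i => by rw [← hT, hx]; rfl)
    exact Subtype.ext this
  have hfr : Module.finrank ℚ V = Module.finrank ℚ (Fin v → ℚ) := by
    rw [hV, Module.finrank_fin_fun]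
  obtain ⟨E, hE⟩ : ∃ E : V ≃ₗ[ℚ] (Fin v → ℚ), ∀ x, E x = T x :=
    ⟨LinearEquiv.ofInjectiveOfFinrankEq T hinj hfr, fun x => rfl⟩
  refine ⟨fun j => f (E.symm (Pi.single j 1)), fun x hx => ?_⟩
  have h1 : f (E.symm (E ⟨x, hx⟩)) = ∑ i, (c i : ℚ) * x i := by
    rw [E.symm_apply_apply, hf]
  rw [← h1]
  have h2 : E ⟨x, hx⟩ = ∑ j, (x (J j)) • (Pi.single j (1 : ℚ) : Fin v → ℚ) := by
    funext j
    rw [hE, hT, Finset.sum_apply]
    simp [Pi.single_apply]
  rw [h2, map_sum, map_sum]
  refine Finset.sum_congr rfl fun j _ => ?_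
  rw [map_smul, map_smul, smul_eq_mul, mul_comm]

theorem st_SHP3 (hD : ST_DVB) : ST_SHP3 := by
  intro L _ _ P hP hP0 p hp hpP n v jj hv hjj V hV J hJ ι z hz u c hu
  have hpF : Fact p.Prime := ⟨hp⟩
  obtain ⟨_, _, _, _, _, _, hpow, _, _⟩ := hD L P hP hP0
  obtain ⟨d, hd⟩ := shp3_lin n v V hV J hJ c
  have hsum : ∀ r, ((∑ i, c i * z r i : ℤ) : ℚ) = ∑ j, d j * ((z r (J j) : ℤ) : ℚ) := by
    intro r
    have := hd _ (hz r)
    rw [← this]
    push_cast
    rfl
  by_cases h0 : ∀ j, d j = 0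
  · refine ⟨⟨0, hv⟩, 1, fun r => z r (J ⟨0, hv⟩), 1, fun _ => 0, ?_, ?_, ?_, ?_, ?_⟩
    · refine ⟨0, 1, (Ideal.ne_top_iff_one P).1 hP.ne_top, Ideal.zero_mem _, ?_⟩
      simp
    · intro r
      have h1 : (∑ i, c i * z r i : ℤ) = 0 := by
        have h2 := hsum r
        have h3 : ∑ j, d j * ((z r (J j) : ℤ) : ℚ) = 0 :=
          Finset.sum_eq_zero fun j _ => by rw [h0 j, zero_mul]
        rw [h3] at h2
        exact_mod_cast h2
      rw [h1, zpow_zero, one_zpow]
    · exact shp3_pint 1 (by rw [padicNorm.one])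
    · exact fun j => shp3_pint 0 (by rw [padicNorm.zero]; norm_num)
    · intro r
      simp
  · push Not at h0
    obtain ⟨j0, hj0⟩ := h0
    have hne : Nonempty (Fin v) := ⟨j0⟩
    obtain ⟨j1, hj1⟩ := Finite.exists_max fun j => padicNorm p (d j)
    have hd0 : d j1 ≠ 0 := by
      intro h
      have h1 := hj1 j0
      rw [h, padicNorm.zero] at h1
      exact padicNorm.nonzero hj0 (le_antisymm h1 (padicNorm.nonneg _))
    have hn0 : 0 < padicNorm p (d j1) :=
      lt_of_le_of_ne (padicNorm.nonneg _) (padicNorm.nonzero hd0).symm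
    have he : ∀ j, pint p (-(d j / d j1)) := by
      intro j
      refine shp3_pint _ ?_
      rw [padicNorm.neg, padicNorm.div, div_le_one hn0]
      exact hj1 j
    have hid : ∀ r, ((z r (J j1) : ℤ) : ℚ) = 1 / d j1 * ((∑ i, c i * z r i : ℤ) : ℚ) +
        ∑ j ∈ Finset.univ.erase j1, -(d j / d j1) * z r (J j) := by
      intro r
      rw [hsum, ← Finset.add_sum_erase _ _ (Finset.mem_univ j1), mul_add, Finset.mul_sum,
        add_assoc, ← Finset.sum_add_distrib, Finset.sum_eq_zero]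
      · field_simp
        ring
      · intro j _
        ring
    rcases le_or_gt 1 (padicNorm p (d j1)) with h1 | h1
    · refine ⟨j1, u, fun r => ∑ i, c i * z r i, 1 / d j1, fun j => -(d j / d j1), hu,
        fun r => rfl, ?_, he, hid⟩
      refine shp3_pint _ ?_
      rw [padicNorm.div, padicNorm.one, div_le_one hn0]
      exact h1
    · obtain ⟨a, ha⟩ := padicNorm.values_discrete (p := p) hd0
      have hp1 : (1 : ℚ) < p := by exact_mod_cast hp.one_lt
      have hp0 : (p : ℚ) ≠ 0 := by positivity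
      have ha0 : 0 < a := by
        by_contra hcon
        rw [ha] at h1
        have : (1 : ℚ) ≤ (p : ℚ) ^ (-a) := one_le_zpow₀ hp1.le (by omega)
        linarith
      obtain ⟨b, rfl⟩ : ∃ b : ℕ, a = b := ⟨a.toNat, by omega⟩
      have hdvd : ∀ r, ((p ^ b : ℕ) : ℤ) ∣ ∑ i, c i * z r i := by
        intro r
        rw [padicNorm.dvd_iff_norm_le, hsum]
        refine padicNorm.sum_le' (fun j _ => ?_) (by positivity)
        rw [padicNorm.mul, ← ha]
        calc padicNorm p (d j) * padicNorm p ((z r (J j) : ℤ) : ℚ) ≤ padicNorm p (d j1) * 1 :=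
              mul_le_mul (hj1 j) (padicNorm.of_int _) (padicNorm.nonneg _) hn0.le
          _ = _ := mul_one _
      choose y hy using hdvd
      refine ⟨j1, u ^ (p ^ b), y, (p : ℚ) ^ b / d j1, fun j => -(d j / d j1), ?_, ?_, ?_, he, ?_⟩
      · have := hpow jj u ((p ^ b : ℕ) : ℤ) hjj hu
        rwa [zpow_natCast] at this
      · intro r
        rw [hy r, zpow_mul, zpow_natCast]
      · refine shp3_pint _ ?_
        rw [padicNorm.div, shp3_pow, padicNorm.padicNorm_p_of_prime, ha, zpow_neg, inv_pow,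
          zpow_natCast, div_self]
        positivity
      · intro r
        rw [hid r, hy r]
        congr 1
        push_cast
        ring

end Pool.Helper99.SZ
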